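import Pool.Agent.H952Z.FMA.Ccc

/-! Bookkeeping along the sets of the first universe. -/

set_option autoImplicit false

namespace Pool.Agent.H952Z.FMA

open Classical Cardinal

/-- coordinates -/
def Co : Type 1 := ZFSet.{0}

lemma rank_fst (x y : ZFSet.{0}) : x.rank < (ZFSet.pair x y).rank := by
  have h1 : x ∈ ({x} : ZFSet) := by simp
  have h2 : ({x} : ZFSet) ∈ ZFSet.pair x y := by simp [ZFSet.pair]
  exact (ZFSet.rank_lt_of_mem h1).trans (ZFSet.rank_lt_of_mem h2)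

lemma rank_snd (x y : ZFSet.{0}) : y.rank < (ZFSet.pair x y).rank := by
  have h1 : y ∈ ({x, y} : ZFSet) := by simp
  have h2 : ({x, y} : ZFSet) ∈ ZFSet.pair x y := by simp [ZFSet.pair]
  exact (ZFSet.rank_lt_of_mem h1).trans (ZFSet.rank_lt_of_mem h2)

/-- `c` codes the condition `t` -/
def Codes (c : ZFSet.{0}) (t : ZFSet.{0} → Option ZFSet.{0}) : Prop :=
  ∀ b z, t b = some z ↔ ZFSet.pair b z ∈ c

lemma Codes.uniq {c : ZFSet.{0}} {t t' : ZFSet.{0} → Option ZFSet.{0}} (h : Codes c t)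
    (h' : Codes c t') : t = t' :=
  funext fun b => Option.ext fun z => (h b z).trans (h' b z).symm

lemma Codes.rank_lt {c : ZFSet.{0}} {t : ZFSet.{0} → Option ZFSet.{0}} (h : Codes c t)
    {b : ZFSet.{0}} (hb : t b ≠ none) : b.rank < c.rank := by
  obtain ⟨z, hz⟩ := Option.ne_none_iff_exists'.1 hb
  exact (rank_fst b z).trans (ZFSet.rank_lt_of_mem ((h b z).1 hz))

lemma exists_code (t : ZFSet.{0} → Option ZFSet.{0}) (ht : {b | t b ≠ none}.Finite) :
    ∃ c, Codes c t := by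
  have : Finite {b | t b ≠ none} := ht
  refine ⟨ZFSet.range fun b : {b | t b ≠ none} => ZFSet.pair b.1 ((t b.1).getD ∅), fun b z => ?_⟩
  rw [ZFSet.mem_range]
  constructor
  · intro h
    exact ⟨⟨b, by simp [h]⟩, by simp [h]⟩
  · rintro ⟨⟨b', hb'⟩, h⟩
    obtain ⟨z', hz'⟩ := Option.ne_none_iff_exists'.1 hb'
    simp only [hz', Option.getD_some, ZFSet.pair_inj] at h
    rw [← h.1, ← h.2, hz']

/-- the name coded by a coordinate -/
def Nm (a x y : ZFSet.{0}) : Set (ZFSet.{0} → Option ZFSet.{0}) :=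
  {t | ∃ A d G H, a = ZFSet.pair A (ZFSet.pair d (ZFSet.pair G H)) ∧ ∃ c,
    ZFSet.pair (ZFSet.pair (if x ∈ A then x else d) (if y ∈ A then y else d)) c ∈ G ∧ Codes c t}

lemma mk_zfset : #ZFSet.{0} ≤ Cardinal.univ.{0, 1} := by
  let f : ZFSet.{0} → Σ o : Ordinal.{0}, ZFSet.vonNeumann o :=
    fun x => ⟨Order.succ x.rank, x, ZFSet.mem_vonNeumann_succ x⟩
  have hf : Function.Injective f := by
    intro x y h
    exact congrArg (fun s : Σ o : Ordinal.{0}, ZFSet.vonNeumann o => s.2.1) h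
  refine (mk_le_of_injective hf).trans ?_
  rw [mk_sigma]
  refine (sum_le_sum _ (fun _ => Cardinal.univ.{0, 1}) fun o => ?_).trans ?_
  · have : Small.{0} (ZFSet.vonNeumann o) := inferInstance
    have := small_iff_lift_mk_lt_univ.1 this
    simpa using this.le
  · rw [sum_const', mk_ordinal, mul_eq_self]
    exact aleph0_lt_univ.le

lemma exists_inj (S : Type) : ∃ j : S → ZFSet.{0}, Function.Injective j := by
  obtain ⟨_, _⟩ := exists_wellFoundedLT S
  exact ⟨fun s => Ordinal.toZFSet (Ordinal.typein (α := S) (· < ·) s),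
    Ordinal.toZFSet_injective.comp (Ordinal.typein_injective _)⟩

theorem exists_book : ∃ (I U : Type 1) (_ : LinearOrder I) (_ : WellFoundedLT I)
    (N : I → U → U → Set (I → Option U)), #I ≤ Cardinal.univ.{0, 1} ∧
    ∀ (S L : Type), Nonempty S → ∃ (j : S → U) (π : U → S), (∀ s, π (j s) = s) ∧
    ∀ (B : S → S → ℕ → Option (I → Option U)) (E : L → I → Option U),
      (∀ x y n t, B x y n = some t → {b | t b ≠ none}.Finite) →
      (∀ l, {b | E l b ≠ none}.Finite) →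
      ∃ a, (∀ x y t, t ∈ N a x y ↔ ∃ n, B (π x) (π y) n = some t) ∧
        (∀ x y, ∀ t ∈ N a x y, In (Set.Iio a) t) ∧ ∀ l, In (Set.Iio a) (E l) := by
  let r : Co → Co → Prop := fun a b => ZFSet.rank a < ZFSet.rank b
  have : IsWellFounded Co r := ⟨InvImage.wf (f := fun a : Co => ZFSet.rank a) wellFounded_lt⟩
  let lo : LinearOrder Co := IsWellFounded.wellOrderExtension r
  have hlt : ∀ a b : Co, ZFSet.rank b < ZFSet.rank a → b < a := fun _ _ h =>
    Prod.Lex.left _ _ (IsWellFounded.rank_lt_of_rel (r := r) h)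
  refine ⟨Co, ZFSet.{0}, lo, IsWellFounded.wellOrderExtension.isWellFounded_lt r, Nm, mk_zfset,
    fun S L hS => ?_⟩
  obtain ⟨j, hj⟩ := exists_inj S
  obtain ⟨s0⟩ := hS
  let π : ZFSet.{0} → S := fun x => if h : ∃ s, j s = x then h.choose else s0
  have hπ : ∀ s, π (j s) = s := fun s => by
    have h : ∃ s', j s' = j s := ⟨s, rfl⟩
    simp only [π, dif_pos h]
    exact hj h.choose_spec
  have hπ' : ∀ x, (if x ∈ ZFSet.range j then x else j s0) = j (π x) := fun x => by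
    by_cases h : ∃ s, j s = x
    · rw [if_pos (ZFSet.mem_range.2 h)]
      simp only [π, dif_pos h]
      exact h.choose_spec.symm
    · rw [if_neg (fun h' => h (ZFSet.mem_range.1 h'))]
      simp only [π, dif_neg h]
  refine ⟨j, π, hπ, fun B E hB hE => ?_⟩
  have h1 : ∀ z : {z : S × S × ℕ // B z.1 z.2.1 z.2.2 ≠ none}, ∃ c t,
      B z.1.1 z.1.2.1 z.1.2.2 = some t ∧ Codes c t := by
    intro z
    obtain ⟨t, ht⟩ := Option.ne_none_iff_exists'.1 z.2
    obtain ⟨c, hc⟩ := exists_code t (hB _ _ _ t ht)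
    exact ⟨c, t, ht, hc⟩
  choose c hc using h1
  choose d hd using fun l => exists_code (E l) (hE l)
  let G : ZFSet.{0} := ZFSet.range fun z : {z : S × S × ℕ // B z.1 z.2.1 z.2.2 ≠ none} =>
    ZFSet.pair (ZFSet.pair (j z.1.1) (j z.1.2.1)) (c z)
  let H : ZFSet.{0} := ZFSet.range d
  let a : ZFSet.{0} := ZFSet.pair (ZFSet.range j) (ZFSet.pair (j s0) (ZFSet.pair G H))
  have hG : G.rank < a.rank := (rank_fst G H).trans ((rank_snd _ _).trans (rank_snd _ _))
  have hH : H.rank < a.rank := (rank_snd G H).trans ((rank_snd _ _).trans (rank_snd _ _))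
  have hN0 : ∀ x y t, t ∈ Nm a x y ↔
      ∃ c', ZFSet.pair (ZFSet.pair (j (π x)) (j (π y))) c' ∈ G ∧ Codes c' t := by
    intro x y t
    constructor
    · rintro ⟨A, d', G', H', h, c', h1, h2⟩
      simp only [a, ZFSet.pair_inj] at h
      obtain ⟨rfl, rfl, rfl, rfl⟩ := h
      rw [hπ', hπ'] at h1
      exact ⟨c', h1, h2⟩
    · rintro ⟨c', h1, h2⟩
      exact ⟨_, _, G, H, rfl, c', by rw [hπ', hπ']; exact h1, h2⟩
  refine ⟨a, fun x y t => ?_, fun x y t ht b hb => ?_, fun l b hb => ?_⟩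
  · refine (hN0 x y t).trans ?_
    constructor
    · rintro ⟨c', h1, h2⟩
      obtain ⟨z, hz⟩ := ZFSet.mem_range.1 h1
      simp only [ZFSet.pair_inj] at hz
      obtain ⟨⟨e1, e2⟩, rfl⟩ := hz
      obtain ⟨t', h3, h4⟩ := hc z
      refine ⟨z.1.2.2, ?_⟩
      rw [← hj e1, ← hj e2, h3, h4.uniq h2]
    · rintro ⟨n, hn⟩
      let z : {z : S × S × ℕ // B z.1 z.2.1 z.2.2 ≠ none} := ⟨(π x, π y, n), by simp [hn]⟩
      obtain ⟨t', h3, h4⟩ := hc z
      have : t' = t := Option.some_injective _ (h3.symm.trans hn)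
      subst this
      exact ⟨c z, ZFSet.mem_range.2 ⟨z, rfl⟩, h4⟩
  · obtain ⟨c', h1, h2⟩ := (hN0 x y t).1 ht
    exact hlt a b ((h2.rank_lt hb).trans ((rank_snd _ _).trans
      ((ZFSet.rank_lt_of_mem h1).trans hG)))
  · exact hlt a b (((hd l).rank_lt hb).trans
      ((ZFSet.rank_lt_of_mem (ZFSet.mem_range_self l)).trans hH))

end Pool.Agent.H952Z.FMA
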