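import Pool.Agent.H952Z.FMA.Iter

/-!
# The iteration has the countable chain condition

Universe polymorphic copy of `Pool.Agent.H318Z.MA.Ccc` (helper318).
-/

set_option autoImplicit false
set_option linter.unusedSectionVars false

namespace Pool.Agent.H952Z.FMA

open Classical

universe u

/-- a maximal family of pairwise unrelated elements -/
theorem exists_maximal {Y : Type u} (C : Y → Y → Prop) (hs : ∀ a b, C a b → C b a) (T : Set Y)
    (hr : ∀ a ∈ T, C a a) :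
    ∃ M ⊆ T, (∀ a ∈ M, ∀ b ∈ M, a ≠ b → ¬ C a b) ∧ ∀ a ∈ T, ∃ m ∈ M, C a m := by
  obtain ⟨M, hM⟩ := zorn_subset {M : Set Y | M ⊆ T ∧ ∀ a ∈ M, ∀ b ∈ M, a ≠ b → ¬ C a b} (by
    intro c hc hch
    refine ⟨⋃₀ c, ⟨fun a ⟨s, hs, ha⟩ => (hc hs).1 ha, ?_⟩, fun s hs => Set.subset_sUnion_of_mem hs⟩
    rintro a ⟨s, hs, ha⟩ b ⟨t, ht, hb⟩
    rcases hch.total hs ht with h | h
    · exact (hc ht).2 a (h ha) b hb
    · exact (hc hs).2 a ha b (h hb))
  refine ⟨M, hM.prop.1, hM.prop.2, fun a ha => ?_⟩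
  by_contra hcon
  push Not at hcon
  have h1 : insert a M ∈ {M : Set Y | M ⊆ T ∧ ∀ a ∈ M, ∀ b ∈ M, a ≠ b → ¬ C a b} := by
    refine ⟨Set.insert_subset ha hM.prop.1, ?_⟩
    rintro x (rfl | hx) y (rfl | hy) hne
    · exact absurd rfl hne
    · exact hcon y hy
    · exact fun h => hcon x hx (hs _ _ h)
    · exact hM.prop.2 x hx y hy hne
  have h2 : a ∈ M := hM.le_of_ge h1 (Set.subset_insert a M) (Set.mem_insert a M)
  exact hcon a h2 (hr a ha)

theorem exists_popular {Y : Type u} (C : Y → Y → Prop) (hs : ∀ a b, C a b → C b a) (T : Set Y)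
    (hr : ∀ a ∈ T, C a a) (hT : ¬ T.Countable)
    (hc : ∀ M ⊆ T, ¬ M.Countable → ∃ a ∈ M, ∃ b ∈ M, a ≠ b ∧ C a b) :
    ∃ m ∈ T, ¬ {a ∈ T | C a m}.Countable := by
  obtain ⟨M, h1, h2, h3⟩ := exists_maximal C hs T hr
  have hM : M.Countable := by
    by_contra h
    obtain ⟨a, ha, b, hb, hne, hab⟩ := hc M h1 h
    exact h2 a ha b hb hne hab
  by_contra hcon
  push Not at hcon
  refine hT ((hM.biUnion fun m hm => hcon m (h1 hm)).mono fun a ha => ?_)
  obtain ⟨m, hm, h⟩ := h3 a ha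
  exact Set.mem_biUnion hm ⟨ha, h⟩

variable {I U : Type u} [LinearOrder I] [WellFoundedLT I] (N : I → U → U → Set (I → Option U))

/-- the chain condition for the conditions with support in `S` -/
def CC (S : Set I) : Prop :=
  ∀ (Y : Type u) (f : Y → I → Option U) (T : Set Y), ¬ T.Countable →
    (∀ y ∈ T, V N (f y) ∧ In S (f y)) →
      ∃ y ∈ T, ∃ y' ∈ T, y ≠ y' ∧ ∃ s, V N s ∧ In S s ∧ LE' N s (f y) ∧ LE' N s (f y')

variable {N}

theorem cc_step {a : I} (h : CC N (Set.Iio a)) : CC N (Set.Iic a) := by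
  intro Y f T hT hf
  by_cases h0 : {y ∈ T | f y a = none}.Countable
  swap
  · obtain ⟨y, hy, y', hy', hne, s, h1, h2, h3, h4⟩ := h Y f _ h0 (by
      rintro y ⟨hy, hy'⟩
      refine ⟨(hf y hy).1, fun b hb => ?_⟩
      rcases lt_or_eq_of_le ((hf y hy).2 b hb) with h' | h'
      · exact h'
      · exact absurd (h' ▸ hy') hb)
    exact ⟨y, hy.1, y', hy'.1, hne, s, h1, fun b hb => le_of_lt (h2 b hb), h3, h4⟩
  have hT' : ¬ {y ∈ T | f y a ≠ none}.Countable := by
    intro h1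
    refine hT ((h0.union h1).mono fun y hy => ?_)
    by_cases h2 : f y a = none
    · exact Or.inl ⟨hy, h2⟩
    · exact Or.inr ⟨hy, h2⟩
  set T' := {y ∈ T | f y a ≠ none} with hT'def
  let p : Y → I → Option U := fun y => res (Set.Iio a) (f y)
  have hp : ∀ y ∈ T', La N a (p y) (p y) := fun y hy =>
    La_res (hf y hy.1).1 (hf y hy.1).1 (hf y hy.1).1.refl a
  obtain ⟨m, hm, hm'⟩ := exists_popular (fun y y' => ∃ s, La N a s (p y) ∧ La N a s (p y'))
    (fun _ _ ⟨s, h1, h2⟩ => ⟨s, h2, h1⟩) T' (fun y hy => ⟨p y, hp y hy, hp y hy⟩) hT' (by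
      intro M hM hM'
      obtain ⟨y, hy, y', hy', hne, s, h1, h2, h3, h4⟩ := h Y p M hM'
        (fun y hy => (hp y (hM hy)).1)
      exact ⟨y, hy, y', hy', hne, s, ⟨⟨h1, h2⟩, (hp y (hM hy)).1, h3⟩,
        ⟨⟨h1, h2⟩, (hp y' (hM hy')).1, h4⟩⟩)
  have hG : Good (La N a) (N a) (p m) := (ok_iff N a (f m)).1 ((hf m hm.1).1.2 a) hm.2
  obtain ⟨u0, -⟩ := Option.ne_none_iff_exists'.1 hm.2
  have hch : ∀ y, ∃ s, y ∈ {y ∈ T' | ∃ s, La N a s (p y) ∧ La N a s (p m)} →
      La N a s (p y) ∧ La N a s (p m) := by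
    intro y
    by_cases hy : y ∈ {y ∈ T' | ∃ s, La N a s (p y) ∧ La N a s (p m)}
    · obtain ⟨s, hs⟩ := hy.2
      exact ⟨s, fun _ => hs⟩
    · exact ⟨p y, fun h => absurd h hy⟩
  choose p' hp' using hch
  obtain ⟨y, hy, y', hy', hne, s, z, h1, h2, h3, h4⟩ := hG.2.2 Y p' (fun y => (f y a).getD u0) _ hm'
    (fun y hy => (hp' y hy).2)
  have hs1 : La N a s (p y) := La_trans a _ _ _ h1 (hp' y hy).1
  have hs2 : La N a s (p y') := La_trans a _ _ _ h2 (hp' y' hy').1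
  have hGs : Good (La N a) (N a) s := hG.mono (La_trans a) (La_trans a _ _ _ h1 (hp' y hy).2)
  obtain ⟨q, q1, q2, q3, q4, q5, q6⟩ := amalg_at (hf y hy.1.1).1 hs1 (some z)
    (Or.inr ⟨z, rfl, hGs, fun w hw => by simpa [hw] using h3⟩)
  have hab : ∀ y ∈ T, ∀ b, a < b → f y b = none := fun y hy b hb => by
    by_contra h'
    exact absurd ((hf y hy).2 b h') (not_le_of_gt hb)
  refine ⟨y, hy.1.1, y', hy'.1.1, hne, q, q1, fun b hb => ?_, q2, fun b => ?_⟩
  · by_contra h'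
    have h'' : a < b := lt_of_not_ge h'
    exact hb ((q6 b h'').trans (hab y hy.1.1 b h''))
  · rcases lt_trichotomy b a with h' | h' | h'
    · refine le_congr (q := s) (p := p y') (fun c hc => ?_) (res_in (S := Set.Iio a) h') (hs2.2.2 b)
      rw [← q4]
      exact res_in (S := Set.Iio a) (lt_of_le_of_lt hc h')
    · subst h'
      rw [le_iff]
      intro w hw
      exact ⟨z, q5, by rw [q4]; simpa [hw] using h4⟩
    · exact le_none N (hab y' hy'.1.1 b h')

theorem cc_empty : CC N (∅ : Set I) := by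
  intro Y f T hT hf
  obtain ⟨y, hy, y', hy', hne⟩ : T.Nontrivial := by
    by_contra h
    exact hT (Set.not_nontrivial_iff.1 h).countable
  refine ⟨y, hy, y', hy', hne, f y, (hf y hy).1, (hf y hy).2, (hf y hy).1.refl, fun b => ?_⟩
  apply le_none
  by_contra h
  exact (hf y' hy').2 b h

theorem cc_limit {S : Set I} (hS : IsLowerSet S) (h : ∀ b ∈ S, CC N (Set.Iic b)) : CC N S := by
  intro Y f T hT hf
  let F : Y → Finset I := fun y => if hy : y ∈ T then (hf y hy).1.1.toFinset else ∅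
  have hF : ∀ y ∈ T, ∀ b, f y b ≠ none → b ∈ F y := by
    intro y hy b hb
    simp only [F, dif_pos hy, Set.Finite.mem_toFinset]
    exact hb
  obtain ⟨T', R, h1, h2, h3⟩ := Pool.Agent.Helper330.SRC.deltaSystem F T hT
  obtain ⟨S0, hS0, hS1, hS2, hS3⟩ : ∃ S0 : Set I, IsLowerSet S0 ∧ S0 ⊆ S ∧ CC N S0 ∧
      ∀ b ∈ R, b ∈ S → b ∈ S0 := by
    rcases (R.filter (· ∈ S)).eq_empty_or_nonempty with h0 | h0
    · refine ⟨∅, isLowerSet_empty, Set.empty_subset _, cc_empty, fun b hb hb' => ?_⟩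
      have : b ∈ R.filter (· ∈ S) := Finset.mem_filter.2 ⟨hb, hb'⟩
      rw [h0] at this
      exact absurd this (Finset.notMem_empty b)
    · have hm := (Finset.mem_filter.1 (Finset.max'_mem _ h0)).2
      exact ⟨Set.Iic ((R.filter (· ∈ S)).max' h0), isLowerSet_Iic _, fun b hb => hS hb hm,
        h _ hm, fun b hb hb' => Finset.le_max' _ b (Finset.mem_filter.2 ⟨hb, hb'⟩)⟩
  obtain ⟨y, hy, y', hy', hne, s, s1, s2, s3, s4⟩ := hS2 Y (fun y => res S0 (f y)) T' h2
    (fun y hy => ⟨(hf y (h1 hy)).1.res hS0, in_res _ _⟩)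
  let q : I → Option U := fun b => if b ∈ S0 then s b else if f y b = none then f y' b else f y b
  have q1 : ∀ b ∈ S0, q b = s b := fun b hb => if_pos hb
  have q2 : ∀ b ∉ S0, f y b = none → q b = f y' b := fun b hb hb' => by simp [q, hb, hb']
  have q3 : ∀ b ∉ S0, f y b ≠ none → q b = f y b := fun b hb hb' => by simp [q, hb, hb']
  have hsupp : ∀ b, q b ≠ none → s b ≠ none ∨ f y b ≠ none ∨ f y' b ≠ none := by
    intro b hb
    by_cases h0 : b ∈ S0
    · exact Or.inl (q1 b h0 ▸ hb)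
    · by_cases h' : f y b = none
      · exact Or.inr (Or.inr (q2 b h0 h' ▸ hb))
      · exact Or.inr (Or.inl h')
  obtain ⟨v1, v2⟩ := amalg (N := N) (q := q)
    ((s1.1.union ((hf y (h1 hy)).1.1.union (hf y' (h1 hy')).1.1)).subset hsupp) {f y, f y'} (by
      rintro t (rfl | rfl)
      · exact (hf y (h1 hy)).1
      · exact (hf y' (h1 hy')).1) (by
      intro b
      by_cases h0 : b ∈ S0
      · left
        have e : ∀ c, c ≤ b → s c = q c := fun c hc => (q1 c (hS0 hc h0)).symm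
        refine ⟨ok_congr e (s1.2 b), ?_⟩
        rintro t (rfl | rfl)
        · exact le_congr e (res_in h0) (s3 b)
        · exact le_congr e (res_in h0) (s4 b)
      · right
        by_cases h' : f y b = none
        · refine ⟨?_, Or.inr ⟨f y', Or.inr rfl, q2 b h0 h'⟩⟩
          rintro t (rfl | rfl)
          · exact Or.inl h'
          · exact Or.inr (q2 b h0 h')
        · refine ⟨?_, Or.inr ⟨f y, Or.inl rfl, q3 b h0 h'⟩⟩
          rintro t (rfl | rfl)
          · exact Or.inr (q3 b h0 h')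
          · left
            by_contra h''
            exact h0 (hS3 b (h3 y hy y' hy' hne b (hF y (h1 hy) b h') (hF y' (h1 hy') b h''))
              ((hf y (h1 hy)).2 b h')))
  refine ⟨y, h1 hy, y', h1 hy', hne, q, v1, fun b hb => ?_, v2 _ (Or.inl rfl), v2 _ (Or.inr rfl)⟩
  rcases hsupp b hb with h' | h' | h'
  · exact hS1 (s2 b h')
  · exact (hf y (h1 hy)).2 b h'
  · exact (hf y' (h1 hy')).2 b h'

theorem cc_Iio (a : I) : CC N (Set.Iio a) := by
  induction a using WellFoundedLT.induction with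
  | ind a ih => exact cc_limit (isLowerSet_Iio a) fun b hb => cc_step (ih b hb)

theorem cc_univ : CC N (Set.univ : Set I) :=
  cc_limit isLowerSet_univ fun b _ => cc_step (cc_Iio b)

variable (N) in
/-- the forcing notion -/
def PP : Type u := {q : I → Option U // V N q}

instance : Preorder (PP N) where
  le q p := LE' N q.1 p.1
  le_refl q := q.2.refl
  le_trans q p o h1 h2 := LE'.trans q.2 p.2 o.2 h1 h2

theorem PP.le_def {q p : PP N} : q ≤ p ↔ LE' N q.1 p.1 := Iff.rfl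

instance : Nonempty (PP N) := ⟨⟨fun _ => none, by simp, fun _ => ok_none N rfl⟩⟩

theorem PP.ccc {Y : Type u} (f : Y → PP N) (T : Set Y) (hT : ¬ T.Countable) :
    ∃ y ∈ T, ∃ y' ∈ T, y ≠ y' ∧ ∃ s, s ≤ f y ∧ s ≤ f y' := by
  obtain ⟨y, hy, y', hy', hne, s, h1, -, h2, h3⟩ := cc_univ Y (fun y => (f y).1) T hT
    (fun y _ => ⟨(f y).2, fun _ _ => trivial⟩)
  exact ⟨y, hy, y', hy', hne, ⟨s, h1⟩, h2, h3⟩

/-- restriction below `a` -/
noncomputable def PP.rs (a : I) (q : PP N) : PP N :=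
  ⟨res (Set.Iio a) q.1, q.2.res (isLowerSet_Iio a)⟩

theorem PP.le_rs (a : I) (q : PP N) : q ≤ q.rs a := q.2.le_res

theorem PP.rs_le {a : I} {q t : PP N} (h : q ≤ t) (ht : In (Set.Iio a) t.1) : q.rs a ≤ t := by
  have := LE'.res (isLowerSet_Iio a) h
  rw [res_eq ht] at this
  exact this

/-- forcing below `a` implies forcing in the whole iteration -/
theorem frc_up {a : I} {M : Set (I → Option U)} {q : PP N}
    (h : Frc (La N a) M (res (Set.Iio a) q.1)) (r : PP N) (hr : r ≤ q) :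
    ∃ s ≤ r, ∃ t : PP N, t.1 ∈ M ∧ s ≤ t := by
  obtain ⟨s0, h1, t, ht, h2⟩ := h _ (La_res r.2 q.2 hr a)
  obtain ⟨s, s1, s2, s3, -⟩ := amalg_at r.2 h1 (r.1 a) (Or.inl rfl)
  exact ⟨⟨s, s1⟩, s2, ⟨t, h2.2.1.1⟩, ht, LE'.trans s1 h2.1.1 h2.2.1.1 s3 h2.2.2⟩

/-- forcing in the whole iteration implies forcing below `a` -/
theorem frc_down {a : I} {M : Set (I → Option U)} (hM : ∀ t ∈ M, In (Set.Iio a) t) {q : PP N}
    (h : ∀ r ≤ q, ∃ s ≤ r, ∃ t : PP N, t.1 ∈ M ∧ s ≤ t) :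
    Frc (La N a) M (res (Set.Iio a) q.1) := by
  intro r hr
  obtain ⟨r', s1, s2, -, s4, -⟩ := amalg_at q.2 hr (q.1 a) (Or.inl rfl)
  obtain ⟨s, hs, t, ht, hst⟩ := h ⟨r', s1⟩ s2
  refine ⟨res (Set.Iio a) s.1, ?_, t.1, ht, ?_⟩
  · have := La_res s.2 s1 hs a
    rwa [s4] at this
  · have := La_res s.2 t.2 hst a
    rwa [res_eq (hM _ ht)] at this

end Pool.Agent.H952Z.FMA
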