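import Mathlib
import Pool.Agent.Helper330.SRC.P_deltaSystem

/-!
# Finite support iteration of ccc preorders on a fixed set `U` along a well-order `I`

Universe polymorphic copy of `Pool.Agent.H318Z.MA.Iter` (helper318).
-/

set_option autoImplicit false
set_option linter.unusedSectionVars false

namespace Pool.Agent.H952Z.FMA

open Classical

universe u

section
variable {W U : Type u}

/-- `q` forces that the generic filter meets `N`, for the order relation `L` -/
def Frc (L : W → W → Prop) (N : Set W) (q : W) : Prop :=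
  ∀ r, L r q → ∃ s, L s r ∧ ∃ t ∈ N, L s t

/-- `q` forces that `R` is a ccc preorder (combinatorial form) -/
def Good (L : W → W → Prop) (R : U → U → Set W) (q : W) : Prop :=
  (∀ x, Frc L (R x x) q) ∧
  (∀ r, L r q → ∀ x y z, Frc L (R x y) r → Frc L (R y z) r → Frc L (R x z) r) ∧
  ∀ (Y : Type u) (f : Y → W) (g : Y → U) (T : Set Y), ¬ T.Countable → (∀ y ∈ T, L (f y) q) →
    ∃ y ∈ T, ∃ y' ∈ T, y ≠ y' ∧ ∃ s z, L s (f y) ∧ L s (f y') ∧
      Frc L (R z (g y)) s ∧ Frc L (R z (g y')) s

theorem Frc.mono {L : W → W → Prop} (hL : ∀ a b c, L a b → L b c → L a c) {N : Set W} {p q : W}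
    (h : Frc L N p) (hq : L q p) : Frc L N q := fun r hr => h r (hL _ _ _ hr hq)

theorem Good.mono {L : W → W → Prop} (hL : ∀ a b c, L a b → L b c → L a c) {R : U → U → Set W}
    {p q : W} (h : Good L R p) (hq : L q p) : Good L R q :=
  ⟨fun x => (h.1 x).mono hL hq, fun r hr => h.2.1 r (hL _ _ _ hr hq),
    fun Y f g T hT hf => h.2.2 Y f g T hT fun y hy => hL _ _ _ (hf y hy) hq⟩

end

variable {I U : Type u} [LinearOrder I] [WellFoundedLT I]

/-- restriction of a raw condition -/
noncomputable def res (S : Set I) (q : I → Option U) : I → Option U :=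
  fun b => if b ∈ S then q b else none

theorem res_in {S : Set I} {q : I → Option U} {b : I} (h : b ∈ S) : res S q b = q b := if_pos h
theorem res_out {S : Set I} {q : I → Option U} {b : I} (h : b ∉ S) : res S q b = none := if_neg h

/-- the support is in `S` -/
def In (S : Set I) (q : I → Option U) : Prop := ∀ b, q b ≠ none → b ∈ S

theorem in_res (S : Set I) (q : I → Option U) : In S (res S q) := fun b hb => by
  by_contra h
  exact hb (res_out h)

theorem res_eq {S : Set I} {q : I → Option U} (h : In S q) : res S q = q := by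
  funext b
  by_cases hb : b ∈ S
  · exact res_in hb
  · rw [res_out hb]
    by_contra h'
    exact hb (h b (Ne.symm h'))

theorem res_congr {S : Set I} {q q' : I → Option U} (h : ∀ b ∈ S, q b = q' b) :
    res S q = res S q' := by
  funext b
  by_cases hb : b ∈ S
  · rw [res_in hb, res_in hb, h b hb]
  · rw [res_out hb, res_out hb]

variable (N : I → U → U → Set (I → Option U))

/-- one step of the recursion -/
def step (a : I)
    (rec : ∀ b, b < a → ((I → Option U) → Prop) × ((I → Option U) → (I → Option U) → Prop)) :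
    ((I → Option U) → Prop) × ((I → Option U) → (I → Option U) → Prop) :=
  let V : (I → Option U) → Prop := fun q =>
    {b | q b ≠ none}.Finite ∧ In (Set.Iio a) q ∧ ∀ b (h : b < a), (rec b h).1 q
  let L : (I → Option U) → (I → Option U) → Prop := fun q p =>
    V q ∧ V p ∧ ∀ b (h : b < a), (rec b h).2 q p
  (fun q => q a ≠ none → Good L (N a) (res (Set.Iio a) q),
   fun q p => ∀ y, p a = some y → ∃ x, q a = some x ∧ Frc L (N a x y) (res (Set.Iio a) q))

/-- the recursion -/
noncomputable def FF (a : I) :
    ((I → Option U) → Prop) × ((I → Option U) → (I → Option U) → Prop) :=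
  (wellFounded_lt (α := I)).fix (step N) a

/-- validity at a coordinate -/
def ok (a : I) (q : I → Option U) : Prop := (FF N a).1 q
/-- the order at a coordinate -/
def le (a : I) (q p : I → Option U) : Prop := (FF N a).2 q p

/-- the order of the iteration below `a`, as it comes from the recursion -/
def L0 (a : I) (q p : I → Option U) : Prop :=
  ({b | q b ≠ none}.Finite ∧ In (Set.Iio a) q ∧ ∀ b, b < a → ok N b q) ∧
  ({b | p b ≠ none}.Finite ∧ In (Set.Iio a) p ∧ ∀ b, b < a → ok N b p) ∧
    ∀ b, b < a → le N b q p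

theorem ok_iff0 (a : I) (q : I → Option U) :
    ok N a q ↔ (q a ≠ none → Good (L0 N a) (N a) (res (Set.Iio a) q)) := by
  unfold ok FF
  rw [WellFounded.fix_eq]
  rfl

theorem le_iff0 (a : I) (q p : I → Option U) :
    le N a q p ↔ ∀ y, p a = some y → ∃ x, q a = some x ∧
      Frc (L0 N a) (N a x y) (res (Set.Iio a) q) := by
  unfold le FF
  rw [WellFounded.fix_eq]
  rfl

theorem ok_none {a : I} {q : I → Option U} (h : q a = none) : ok N a q :=
  (ok_iff0 N a q).2 fun h' => absurd h h'

theorem le_none {a : I} {q p : I → Option U} (h : p a = none) : le N a q p :=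
  (le_iff0 N a q p).2 fun y hy => by rw [h] at hy; cases hy

/-- valid conditions -/
def V (q : I → Option U) : Prop := {b | q b ≠ none}.Finite ∧ ∀ b, ok N b q

/-- the order -/
def LE' (q p : I → Option U) : Prop := ∀ b, le N b q p

/-- the order of the iteration below `a` -/
def La (a : I) (q p : I → Option U) : Prop :=
  (V N q ∧ In (Set.Iio a) q) ∧ (V N p ∧ In (Set.Iio a) p) ∧ LE' N q p

theorem L0_eq (a : I) : L0 N a = La N a := by
  funext q p
  apply propext
  have key : ∀ q : I → Option U, In (Set.Iio a) q → ∀ b, ¬ b < a → q b = none := by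
    intro q hq b hb
    by_contra h
    exact hb (hq b h)
  constructor
  · rintro ⟨⟨h1, h2, h3⟩, ⟨h4, h5, h6⟩, h7⟩
    refine ⟨⟨⟨h1, fun b => ?_⟩, h2⟩, ⟨⟨h4, fun b => ?_⟩, h5⟩, fun b => ?_⟩
    · by_cases hb : b < a
      · exact h3 b hb
      · exact ok_none N (key q h2 b hb)
    · by_cases hb : b < a
      · exact h6 b hb
      · exact ok_none N (key p h5 b hb)
    · by_cases hb : b < a
      · exact h7 b hb
      · exact le_none N (key p h5 b hb)
  · rintro ⟨⟨⟨h1, h3⟩, h2⟩, ⟨⟨h4, h6⟩, h5⟩, h7⟩
    exact ⟨⟨h1, h2, fun b _ => h3 b⟩, ⟨h4, h5, fun b _ => h6 b⟩, fun b _ => h7 b⟩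

theorem ok_iff (a : I) (q : I → Option U) :
    ok N a q ↔ (q a ≠ none → Good (La N a) (N a) (res (Set.Iio a) q)) := by
  rw [ok_iff0, L0_eq]

theorem le_iff (a : I) (q p : I → Option U) :
    le N a q p ↔ ∀ y, p a = some y → ∃ x, q a = some x ∧
      Frc (La N a) (N a x y) (res (Set.Iio a) q) := by
  rw [le_iff0, L0_eq]

variable {N}

theorem ok_congr {a : I} {q q' : I → Option U} (h : ∀ b, b ≤ a → q b = q' b) (hq : ok N a q) :
    ok N a q' := by
  rw [ok_iff] at hq ⊢
  rw [← h a le_rfl, ← res_congr (S := Set.Iio a) fun b hb => h b (le_of_lt hb)]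
  exact hq

theorem le_congr {a : I} {q q' p p' : I → Option U} (h : ∀ b, b ≤ a → q b = q' b)
    (h' : p a = p' a) (hq : le N a q p) : le N a q' p' := by
  rw [le_iff] at hq ⊢
  rw [← h a le_rfl, ← h', ← res_congr (S := Set.Iio a) fun b hb => h b (le_of_lt hb)]
  exact hq

theorem V.res {S : Set I} (hS : IsLowerSet S) {q : I → Option U} (hq : V N q) :
    V N (res S q) := by
  refine ⟨hq.1.subset fun b hb => ?_, fun b => ?_⟩
  · have hb' : Pool.Agent.H952Z.FMA.res S q b ≠ none := hb
    rw [res_in (in_res S q b hb')] at hb'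
    exact hb'
  · by_cases hb : b ∈ S
    · exact ok_congr (fun c hc => (res_in (hS hc hb)).symm) (hq.2 b)
    · exact ok_none N (res_out hb)

theorem LE'.res {S : Set I} (hS : IsLowerSet S) {q p : I → Option U} (h : LE' N q p) :
    LE' N (res S q) (res S p) := by
  intro b
  by_cases hb : b ∈ S
  · exact le_congr (fun c hc => (res_in (hS hc hb)).symm) (res_in hb).symm (h b)
  · exact le_none N (res_out hb)

theorem V.refl {q : I → Option U} (hq : V N q) : LE' N q q := by
  intro b
  rw [le_iff]
  intro y hy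
  exact ⟨y, hy, ((ok_iff N b q).1 (hq.2 b) (by rw [hy]; simp)).1 y⟩

theorem La_res {q p : I → Option U} (hq : V N q) (hp : V N p) (h : LE' N q p) (a : I) :
    La N a (res (Set.Iio a) q) (res (Set.Iio a) p) :=
  ⟨⟨hq.res (isLowerSet_Iio a), in_res _ _⟩, ⟨hp.res (isLowerSet_Iio a), in_res _ _⟩,
    h.res (isLowerSet_Iio a)⟩

theorem le_trans0 (b : I) : ∀ q p o : I → Option U, V N q → V N p → V N o → LE' N q p →
    LE' N p o → le N b q o := by
  induction b using WellFoundedLT.induction with
  | ind b ih =>
    have hL : ∀ x y z, La N b x y → La N b y z → La N b x z := by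
      intro x y z h1 h2
      refine ⟨h1.1, h2.2.1, fun c => ?_⟩
      by_cases hc : c < b
      · exact ih c hc x y z h1.1.1 h1.2.1.1 h2.2.1.1 h1.2.2 h2.2.2
      · apply le_none
        by_contra h
        exact hc (h2.2.1.2 c h)
    intro q p o hq hp ho h1 h2
    rw [le_iff]
    intro z hz
    obtain ⟨y, hy, hyz⟩ := (le_iff N b p o).1 (h2 b) z hz
    obtain ⟨x, hx, hxy⟩ := (le_iff N b q p).1 (h1 b) y hy
    refine ⟨x, hx, ?_⟩
    have hG := (ok_iff N b q).1 (hq.2 b) (by rw [hx]; simp)
    exact hG.2.1 _ (La_res hq hq hq.refl b) x y z hxy (hyz.mono hL (La_res hq hp h1 b))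

theorem LE'.trans {q p o : I → Option U} (hq : V N q) (hp : V N p) (ho : V N o) (h1 : LE' N q p)
    (h2 : LE' N p o) : LE' N q o := fun b => le_trans0 b q p o hq hp ho h1 h2

theorem La_trans (a : I) : ∀ x y z, La N a x y → La N a y z → La N a x z :=
  fun _ _ _ h1 h2 => ⟨h1.1, h2.2.1, h1.2.2.trans h1.1.1 h1.2.1.1 h2.2.1.1 h2.2.2⟩

theorem V.le_res {S : Set I} {q : I → Option U} (hq : V N q) : LE' N q (Pool.Agent.H952Z.FMA.res S q) := by
  intro b
  by_cases hb : b ∈ S
  · exact le_congr (fun _ _ => rfl) (res_in hb).symm (hq.refl b)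
  · exact le_none N (res_out hb)

/-- amalgamation -/
theorem amalg {q : I → Option U} (hq : {b | q b ≠ none}.Finite) (A : Set (I → Option U))
    (hA : ∀ p ∈ A, V N p)
    (h : ∀ b, (ok N b q ∧ ∀ p ∈ A, le N b q p) ∨
      ((∀ p ∈ A, p b = none ∨ q b = p b) ∧ (q b = none ∨ ∃ p ∈ A, q b = p b))) :
    V N q ∧ ∀ p ∈ A, LE' N q p := by
  have key : ∀ b, ok N b q ∧ ∀ p ∈ A, le N b q p := by
    intro b
    induction b using WellFoundedLT.induction with
    | ind b ih =>
      rcases h b with h1 | ⟨h1, h2⟩
      · exact h1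
      have hV : V N (res (Set.Iio b) q) := by
        refine ⟨hq.subset fun c hc => ?_, fun c => ?_⟩
        · have hc' : res (Set.Iio b) q c ≠ none := hc
          rw [res_in (in_res _ q c hc')] at hc'
          exact hc'
        · by_cases hc : c < b
          · exact ok_congr (fun d hd => (res_in (S := Set.Iio b) (lt_of_le_of_lt hd hc)).symm)
              (ih c hc).1
          · exact ok_none N (res_out hc)
      have hle : ∀ p ∈ A, La N b (res (Set.Iio b) q) (res (Set.Iio b) p) := by
        intro p hp
        refine ⟨⟨hV, in_res _ _⟩, ⟨(hA p hp).res (isLowerSet_Iio b), in_res _ _⟩, fun c => ?_⟩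
        by_cases hc : c < b
        · exact le_congr (fun d hd => (res_in (S := Set.Iio b) (lt_of_le_of_lt hd hc)).symm)
            (res_in (S := Set.Iio b) hc).symm ((ih c hc).2 p hp)
        · exact le_none N (res_out hc)
      have hok : ok N b q := by
        rw [ok_iff]
        intro hne
        rcases h2 with h2 | ⟨p, hp, h2⟩
        · exact absurd h2 hne
        · exact ((ok_iff N b p).1 ((hA p hp).2 b) (h2 ▸ hne)).mono (La_trans b) (hle p hp)
      refine ⟨hok, fun p hp => ?_⟩
      rcases h1 p hp with h3 | h3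
      · exact le_none N h3
      · rw [le_iff]
        intro y hy
        refine ⟨y, h3.trans hy, ?_⟩
        exact ((ok_iff N b q).1 hok (by rw [h3, hy]; simp)).1 y
  exact ⟨⟨hq, fun b => (key b).1⟩, fun p hp b => (key b).2 p hp⟩

/-- amalgamation of `s` (below `a`), a value at `a`, and the part of `p` above `a` -/
theorem amalg_at {a : I} {s p : I → Option U} (hp : V N p)
    (hs : La N a s (res (Set.Iio a) p)) (v : Option U)
    (hv : v = p a ∨ ∃ z, v = some z ∧ Good (La N a) (N a) s ∧
      ∀ y, p a = some y → Frc (La N a) (N a z y) s) :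
    ∃ q, V N q ∧ LE' N q p ∧ LE' N q s ∧ res (Set.Iio a) q = s ∧ q a = v ∧
      ∀ b, a < b → q b = p b := by
  let q : I → Option U := fun b => if b < a then s b else if b = a then v else p b
  have q1 : ∀ b, b < a → q b = s b := fun b hb => if_pos hb
  have q2 : q a = v := by simp [q]
  have q3 : ∀ b, a < b → q b = p b := fun b hb => by
    simp [q, not_lt_of_gt hb, ne_of_gt hb]
  have sn : ∀ b, ¬ b < a → s b = none := fun b hb => by
    by_contra h
    exact hb (hs.1.2 b h)
  have q4 : res (Set.Iio a) q = s := by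
    rw [← res_eq hs.1.2]
    exact res_congr fun b hb => q1 b hb
  have hfin : {b | q b ≠ none}.Finite := by
    refine ((hs.1.1.1.union hp.1).union (Set.finite_singleton a)).subset fun b hb => ?_
    have hb' : q b ≠ none := hb
    rcases lt_trichotomy b a with h | h | h
    · rw [q1 b h] at hb'
      exact Or.inl (Or.inl hb')
    · exact Or.inr h
    · rw [q3 b h] at hb'
      exact Or.inl (Or.inr hb')
  obtain ⟨h1, h2⟩ := amalg (N := N) hfin {p, s} (by
      rintro t (rfl | rfl)
      · exact hp
      · exact hs.1.1) (by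
      intro b
      rcases lt_trichotomy b a with h | h | h
      · left
        have e : ∀ c, c ≤ b → s c = q c := fun c hc => (q1 c (lt_of_le_of_lt hc h)).symm
        refine ⟨ok_congr e (hs.1.1.2 b), ?_⟩
        rintro t (rfl | rfl)
        · exact le_congr e (res_in (S := Set.Iio a) h) (hs.2.2 b)
        · exact le_congr e rfl (hs.1.1.refl b)
      · subst h
        rcases hv with hv | ⟨z, hz, hG, hF⟩
        · right
          refine ⟨?_, Or.inr ⟨p, Or.inl rfl, q2.trans hv⟩⟩
          rintro t (rfl | rfl)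
          · exact Or.inr (q2.trans hv)
          · exact Or.inl (sn b (lt_irrefl b))
        · left
          refine ⟨(ok_iff N b q).2 fun _ => by rw [q4]; exact hG, ?_⟩
          rintro t (rfl | rfl)
          · rw [le_iff]
            intro y hy
            exact ⟨z, q2.trans hz, by rw [q4]; exact hF y hy⟩
          · exact le_none N (sn b (lt_irrefl b))
      · right
        refine ⟨?_, Or.inr ⟨p, Or.inl rfl, q3 b h⟩⟩
        rintro t (rfl | rfl)
        · exact Or.inr (q3 b h)
        · exact Or.inl (sn b (not_lt_of_gt h)))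
  exact ⟨q, h1, h2 p (Or.inl rfl), h2 s (Or.inr rfl), q4, q2, q3⟩

end Pool.Agent.H952Z.FMA
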